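import Mathlib
import Pool.Agent.Helper78_ACIT.Circuit
import Pool.Agent.Helper26_RS.Pit
import Pool.Agent.Helper99_RS.All

set_option autoImplicit false

/-!
# `MP_b2b50d_lc`: black-box identity test for sums of products of powers (binary exponents) of
polynomials of bounded degree, with bounded top fan-in or bounded algebraic rank

For fixed `k` and `d` the test applies to all circuits, of any shape and of exponential degree, whose
polynomial is zero or divides a nonzero sum `F = ∑ i < N, A_i ∏ j < m, f_j ^ e_ij`, where the `f_j` and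
`A_i` have degree at most `d`, the exponents are given in binary, and the terms have algebraic rank at
most `k` (for example `N ≤ k`: depth-`4` circuits `Σ^k Π Σ Π^[d]`, with powers).  If the `f_j` are
nonconstant and pairwise relatively prime, then only the terms of each cluster (a connected component
of the graph in which two terms are adjacent if all their exponents differ by at most `B`) are
required to have algebraic rank at most `k`.
-/

namespace Pool.Agent.Helper26_Moved.PowersOfLowDegreeKept

open Polynomial Pool.Agent.Helper78_ACIT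

/-- The sum of the absolute values of the coefficients. -/
noncomputable def length {n : ℕ} (f : MvPolynomial (Fin n) ℤ) : ℕ :=
  ∑ d ∈ f.support, (f.coeff d).natAbs

/-- The coordinate `∑ j < t, z_j ∏ l < n, l ≠ s, (w_j - l)` for `s < n`, and `0` for `s ≥ n`. -/
def point {R : Type} [CommRing R] {t : ℕ} (n : ℕ) (w z : Fin t → R) (s : ℕ) : R :=
  if s < n then ∑ j, z j * ∏ l ∈ (Finset.range n).erase s, (w j - (l : R)) else 0

/-- The value of the circuit `G` at the point
`x_s = ∑ j < t, (γ_j + δ_j X) ∏ l < n, l ≠ s, (β_j - l)` (`x_s = 0` for `s ≥ n`) in the finite ring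
`F_p[X] / (X ^ R)`. -/
noncomputable def testValue (n p R t : ℕ) (β γ δ : Fin t → ZMod p) (G : List Gate) :
    AdjoinRoot (X ^ R : (ZMod p)[X]) :=
  out (fun s => AdjoinRoot.of _ (point n β γ s) +
    AdjoinRoot.of _ (point n β δ s) * AdjoinRoot.root _) G

/-- Two of the `N` terms are adjacent if all their `m` exponents differ by at most `B`. -/
def closeGraph {N m : ℕ} (e : Fin N → Fin m → ℕ) (B : ℕ) : SimpleGraph (Fin N) where
  Adj i i' := i ≠ i' ∧ ∀ j, e i j ≤ e i' j + B ∧ e i' j ≤ e i j + B
  symm := ⟨fun _ _ h => ⟨h.1.symm, fun j => ⟨(h.2 j).2, (h.2 j).1⟩⟩⟩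
  loopless := ⟨fun _ h => h.1 rfl⟩

/-- For all `k` and `d` there are `t` and `C` such that the following holds.  Let
`T_i = A_i ∏ j < m, f_j ^ e_ij` (`i < N`), where the `f_j` and `A_i` are polynomials of degree at most
`d` and length at most `2 ^ b` in `ℤ[x_0, ..., x_(n-1)]` and the exponents are at most `2 ^ b`, and let
`B = N (d + N m d)`.  Suppose that the `f_j` are primitive and any `k + 1` of the `T_i` are
algebraically dependent, or that the `f_j` are nonconstant and pairwise relatively prime and any
`k + 1` of the `T_i` in one connected component of `closeGraph e B` are algebraically dependent.  Then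
a circuit `G` whose polynomial is zero or divides `∑ i, T_i ≠ 0` computes zero if and only if it
vanishes at all the points `x_s = ∑ j < t, (γ_j + δ_j X) ∏ l < n, l ≠ s, (β_j - l)` modulo
`X ^ (B + N)` over `F_p`, for all primes `p ≤ (n + m + N + b + 2) ^ C`. -/
theorem result (k d : ℕ) : ∃ t C : ℕ, ∀ (n m N b : ℕ)
    (f : Fin m → MvPolynomial (Fin n) ℤ) (A : Fin N → MvPolynomial (Fin n) ℤ)
    (e : Fin N → Fin m → ℕ), (∀ j, (f j).totalDegree ≤ d) → (∀ i, (A i).totalDegree ≤ d) →
    (∀ j, length (f j) ≤ 2 ^ b) → (∀ i, length (A i) ≤ 2 ^ b) → (∀ i j, e i j ≤ 2 ^ b) →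
    (((∀ j, ∀ z : ℤ, MvPolynomial.C z ∣ f j → IsUnit z) ∧
        ∀ v : Fin (k + 1) → Fin N,
          ¬ AlgebraicIndependent ℤ fun a => A (v a) * ∏ j, f j ^ e (v a) j) ∨
      ((∀ j, 1 ≤ (f j).totalDegree) ∧ (∀ j j', j ≠ j' → IsRelPrime (f j) (f j')) ∧
        ∀ v : Fin (k + 1) → Fin N,
          (∀ a b, (closeGraph e (N * (d + N * (m * d)))).Reachable (v a) (v b)) →
          ¬ AlgebraicIndependent ℤ fun a => A (v a) * ∏ j, f j ^ e (v a) j)) →
    ∀ G : List Gate, WellFormed G →
    (poly G = 0 ∨ (∑ i, A i * ∏ j, f j ^ e i j ≠ 0 ∧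
        poly G ∣ MvPolynomial.rename Fin.val (∑ i, A i * ∏ j, f j ^ e i j))) →
    (G ∈ ACIT ↔ ∀ p, p.Prime → p ≤ (n + m + N + b + 2) ^ C →
      ∀ β γ δ : Fin t → ZMod p,
        testValue n p (N * (d + N * (m * d)) + N) t β γ δ G = 0) := by
  obtain ⟨t0, h⟩ := Helper26_RS.main_alg k d (Helper26_RS.algpit_of_hit RS.H99.hit (k + 1) d)
  obtain ⟨C, h⟩ := h t0 le_rfl
  exact ⟨t0, C, h⟩

end Pool.Agent.Helper26_Moved.PowersOfLowDegreeKept
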