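import Mathlib
import Pool.Agent.QPI.Base
import Pool.Agent.Helper78_ACIT.Circuit
import Pool.Agent.Helper26_QPI.All2
import Pool.Agent.Helper26_QPI.Cnt

set_option autoImplicit false

/-!
Deterministic polynomial-time identity test for sums of `k` products of quadratic polynomials.
-/

namespace Pool.Agent.Results.MP_b2b50d_lc.QuadraticProducts

open MvPolynomial Pool.Agent.Helper78_ACIT Pool.Agent.QPI

/-- Let `form l A` be `N₁` linear and `N₂` quadratic forms in `x_0, ..., x_(n-1)`, given by
coefficient vectors and symmetric matrices over `ℚ`, let `y` be variables of weight `1` and `2`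
standing for them, and let `R_i` (`i < N`) and `f_j` (`j < m`) be polynomials in `y` of weighted
degree at most `ρ` and `δ`, with `f_j(0) = 1`. Consider the sum of products of powers
`F = ∑ i, R_i(forms) * ∏ j, (b_j f_j(forms)) ^ e_ij`. (Every quadratic polynomial `p` with
`p(a) ≠ 0` is, as a function of `x - a`, of the form `b (1 + linear form + quadratic form)`, so sums
of `N` products of powers of quadratic polynomials are of this kind.) Suppose that the `f_j(forms)`
are nonconstant and pairwise coprime, or that all exponents differ by at most `B`, and that every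
cluster of terms has at most `k` elements (for instance `N ≤ k`).

(1) A circuit `G` which computes `F` at `a + β x` is in `ACIT` if and only if the test is
successful for every cluster. The test looks at norms of coefficients of Wronskians of at most `k`
terms; these norms are rational numbers given by the moments of quadratic forms of Gaussian
variables.

(2) The test uses at most `(k + 2) ^ (k + 3) (M + 1)` polynomials. If every monomial of the `R_i`
involves at most `r` variables and every `f_j` involves at most `c` variables (`c = 2` for quadratic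
polynomials), then each of them has at most `((N₁ + N₂)(M + 1) + 1) ^ K` monomials, each in at most
`K = (k + 1)(r + k c)` variables.

(3) If the data are integral and of length at most `2 ^ d`, the norms used in the test are integers
with at most `50 (M + k + m + d (m k B + 1) + k B + 1) ^ 3` bits.

So for fixed `k`, `r`, `c` the test needs polynomially many operations with numbers of
polynomially many bits. -/
theorem result (n N₁ N₂ N m k ρ δ B : ℕ) (l : Fin N₁ → Fin n → ℚ)
    (A : Fin N₂ → Matrix (Fin n) (Fin n) ℚ) (R : Fin N → MvPolynomial (Fin N₁ ⊕ Fin N₂) ℚ)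
    (f : Fin m → MvPolynomial (Fin N₁ ⊕ Fin N₂) ℚ) (b : Fin m → ℚ) (e : Fin N → Fin m → ℕ)
    (hA : ∀ v, (A v).IsSymm) (hf : ∀ j, constantCoeff (f j) = 1) (hb : ∀ j, b j ≠ 0)
    (hR : ∀ i, weightedTotalDegree (wt : Fin N₁ ⊕ Fin N₂ → ℕ) (R i) ≤ ρ)
    (hfd : ∀ j, weightedTotalDegree (wt : Fin N₁ ⊕ Fin N₂ → ℕ) (f j) ≤ δ)
    (hB : N ^ 2 * (m * δ) + N * ρ ≤ B)
    (hcop : ((∀ j, 1 ≤ (aeval (form l A) (f j)).totalDegree) ∧
      Pairwise fun i j => IsRelPrime (aeval (form l A) (f i)) (aeval (form l A) (f j))) ∨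
      ∀ i i' j, e i j ≤ e i' j + B)
    (hk : ∀ i, (cluster e B i).card ≤ k) :
    (∀ (G : List Gate) (a : ℕ → ℚ) (β : ℚ), WellFormed G → β ≠ 0 →
      out (fun s => C (a s) + C β * X s : ℕ → MvPolynomial ℕ ℚ) G =
        rename Fin.val (∑ i, aeval (form l A) (R i) *
          ∏ j, (C (b j) * aeval (form l A) (f j)) ^ e i j) →
      (G ∈ ACIT ↔ ∀ i0, Test l A (cof R b e (cluster e B i0)) f (red e (cluster e B i0))
        ((k + 1) * (ρ + k * (m * δ))))) ∧
    (∀ i0, {p | Tested (cof R b e (cluster e B i0)) f (red e (cluster e B i0))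
        ((k + 1) * (ρ + k * (m * δ))) p}.Finite ∧
      {p | Tested (cof R b e (cluster e B i0)) f (red e (cluster e B i0))
        ((k + 1) * (ρ + k * (m * δ))) p}.ncard ≤
        (k + 2) ^ (k + 3) * ((k + 1) * (ρ + k * (m * δ)) + 1)) ∧
    (∀ r c : ℕ, (∀ i, ∀ α ∈ (R i).support, α.support.card ≤ r) → (∀ j, (f j).vars.card ≤ c) →
      ∀ i0 p, Tested (cof R b e (cluster e B i0)) f (red e (cluster e B i0))
        ((k + 1) * (ρ + k * (m * δ))) p →
      p.support.card ≤ ((N₁ + N₂) * ((k + 1) * (ρ + k * (m * δ)) + 1) + 1) ^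
        ((k + 1) * (r + k * c)) ∧
      ∀ α ∈ p.support, α.support.card ≤ (k + 1) * (r + k * c)) ∧
    (∀ d : ℕ, (∀ j, ∃ z : ℤ, b j = z ∧ |z| ≤ 2 ^ d) → (∀ v, IL (form l A v) (2 ^ d)) →
      (∀ i, IL (R i) (2 ^ d)) → (∀ j, IL (f j) (2 ^ d)) →
      ∀ i0 p, Tested (cof R b e (cluster e B i0)) f (red e (cluster e B i0))
        ((k + 1) * (ρ + k * (m * δ))) p →
      ∃ z : ℤ, nrm l A p = z ∧
        |z| ≤ 2 ^ (50 * ((k + 1) * (ρ + k * (m * δ)) + k + m +
          (d * (m * (k * B) + 1) + k * B) + 1) ^ 3)) := by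
  refine ⟨?_, ?_, ?_, ?_⟩
  · intro G a β hG hβ hpoly
    exact H26.main1 H26.clu H26.deg H26.shi H26.cor n N₁ N₂ N m k ρ δ B l A R f b e a β hA hf hb hβ
      hR hfd hB hcop hk G hG hpoly
  · intro i0
    exact H26.tested_count N₁ N₂ k m _ _ _ _ _ (by rw [Fintype.card_coe]; exact hk i0)
  · intro r c hr hc i0 p hp
    refine H26.main2 H26.vbw H26.cnt H26.whw N₁ N₂ k m _ r c {i // i ∈ cluster e B i0}
      (cof R b e (cluster e B i0)) f (red e (cluster e B i0))
      (by rw [Fintype.card_coe]; exact hk i0) hf ?_ hc p hp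
    intro i α hα
    refine hr i α ?_
    unfold cof at hα
    rw [← smul_eq_C_mul] at hα
    exact MvPolynomial.support_smul hα
  · intro d hbz hlA hRL hfL i0 p hp
    exact H26.main3' H26.sbwS H26.nrbS H26.bit H26.len_ H26.whw H26.red_ N₁ N₂ n N k m _ B d l A R f b
      e hA hf hk hbz hlA hRL hfL i0 p hp

end Pool.Agent.Results.MP_b2b50d_lc.QuadraticProducts
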